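import Mathlib
import Pool.Agent.H447R2.MZ.Dich

/-!
# Multiple zeta values: either graded by weight, or dimensions growing at least linearly

For every `p`, either the sum `Z_0 + Z_1 + ... + Z_p` is direct, or there are `3 ≤ k ≤ p` and
`z` in `Z_k` with `z / π ^ k` transcendental, and then `dim Z_n ≥ ⌊(n - 3 (n mod 2)) / K⌋ + 1` for
every `n ≥ 2`, where `K = lcm (k, 2)`.
-/

set_option autoImplicit false

open Pool.Agent.H447R2.MZ

namespace Pool.Agent.Results.MP_2000e9_nt.GradedOrGrowth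

/-- the `ℚ`-span of the multiple zeta values
`ζ(n_1, …, n_r) = ∑_{0 < k_1 < ⋯ < k_r} k_1^(-n_1) ⋯ k_r^(-n_r)` (`n_i ≥ 1`, `n_r ≥ 2`) of weight `N`;
for `r = 0` the value is `1` and the weight `0` -/
noncomputable def Z (N : ℕ) : Submodule ℚ ℝ :=
  Submodule.span ℚ
    {x : ℝ | ∃ r : ℕ, ∃ n : Fin r → ℕ,
      (∀ i, 1 ≤ n i) ∧ (∀ h : 0 < r, 2 ≤ n ⟨r - 1, Nat.sub_lt h one_pos⟩) ∧ (∑ i, n i) = N ∧
      x = ∑' k : {k : Fin r → ℕ // StrictMono k ∧ ∀ i, 1 ≤ k i},
            ∏ i, (((k.1 i : ℕ) : ℝ) ^ (n i))⁻¹}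

/-- reversing a tuple -/
def revEquiv (t : ℕ) :
    {m : Fin t → ℕ // StrictAnti m ∧ ∀ i, 1 ≤ m i} ≃ {k : Fin t → ℕ // StrictMono k ∧ ∀ i, 1 ≤ k i} where
  toFun := fun m => ⟨m.1 ∘ Fin.rev, fun i j hij => m.2.1 (Fin.rev_lt_rev.2 hij), fun i => m.2.2 _⟩
  invFun := fun m => ⟨m.1 ∘ Fin.rev, fun i j hij => m.2.1 (Fin.rev_lt_rev.2 hij), fun i => m.2.2 _⟩
  left_inv := fun m => by
    apply Subtype.ext
    funext i
    simp
  right_inv := fun m => by
    apply Subtype.ext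
    funext i
    simp

theorem Z_eq (N : ℕ) : Z N = Zs N := by
  apply le_antisymm
  · unfold Zs Z
    rw [Submodule.span_le]
    rintro x ⟨t, k, h1, h2, h3, rfl⟩
    refine Submodule.subset_span ⟨t, k ∘ Fin.rev, fun i => h1 _, fun h => ?_, ?_, ?_⟩
    · have := h2 h
      have e : Fin.rev (⟨0, h⟩ : Fin t) = ⟨t - 1, Nat.sub_lt h one_pos⟩ := by
        ext
        simp only [Fin.val_rev]
        omega
      rw [Function.comp_apply, e]
      exact this
    · rw [← h3]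
      exact Fintype.sum_equiv Fin.revPerm _ _ fun i => rfl
    · rw [← (revEquiv t).tsum_eq]
      refine tsum_congr fun m => ?_
      exact Fintype.prod_equiv Fin.revPerm _ _ fun i => by simp [revEquiv]
  · unfold Zs Z
    rw [Submodule.span_le]
    rintro x ⟨t, k, h1, h2, h3, rfl⟩
    refine Submodule.subset_span ⟨t, k ∘ Fin.rev, fun i => h1 _, fun h => ?_, ?_, ?_⟩
    · have := h2 h
      have e : Fin.rev (⟨t - 1, Nat.sub_lt h one_pos⟩ : Fin t) = ⟨0, h⟩ := by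
        ext
        simp only [Fin.val_rev]
        omega
      rw [Function.comp_apply, e]
      exact this
    · rw [← h3]
      exact Fintype.sum_equiv Fin.revPerm _ _ fun i => rfl
    · rw [← (revEquiv t).tsum_eq]
      refine tsum_congr fun m => ?_
      exact Fintype.prod_equiv Fin.revPerm _ _ fun i => by simp [revEquiv]

/-- growth for an even weight `2 * l` -/
theorem growth_even (l : ℕ) (z : ℝ) (hz : z ∈ Zs (2 * l))
    (ht : Transcendental ℚ (z / Real.pi ^ (2 * l))) (n : ℕ) (hn : 2 ≤ n) :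
    (((n - 3 * (n % 2)) / (2 * l) + 1 : ℕ) : Cardinal) ≤ Module.rank ℚ (Zs n) := by
  have hpi : Real.pi ≠ 0 := Real.pi_ne_zero
  have key : ∀ m i : ℕ, i < 2 * m / (2 * l) + 1 → l * i ≤ m := by
    intro m i hi
    have hi2 : 2 * l * i ≤ 2 * m := by
      have h1 : i ≤ 2 * m / (2 * l) := by omega
      calc 2 * l * i ≤ 2 * l * (2 * m / (2 * l)) := Nat.mul_le_mul_left _ h1
        _ ≤ 2 * m := Nat.mul_div_le _ _
    nlinarith
  have e3 : ∀ m i : ℕ, l * i ≤ m → Real.pi ^ (2 * m) * (z / Real.pi ^ (2 * l)) ^ i =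
      z ^ i * Real.pi ^ (2 * (m - l * i)) := by
    intro m i h
    have e2 : Real.pi ^ (2 * m) = Real.pi ^ (2 * (l * i)) * Real.pi ^ (2 * (m - l * i)) := by
      rw [← pow_add]; congr 1; omega
    rw [e2, div_pow]
    have : (Real.pi ^ (2 * l)) ^ i = Real.pi ^ (2 * (l * i)) := by
      rw [← pow_mul]; congr 1; ring
    rw [this]
    field_simp
  rcases Nat.even_or_odd' n with ⟨m, rfl | rfl⟩
  · have hmod : 2 * m % 2 = 0 := by omega
    rw [hmod]
    simp only [mul_zero, Nat.sub_zero]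
    apply pow_rank_ge (Real.pi ^ (2 * m)) _ (pow_ne_zero _ hpi) ht
    intro i hi
    have hki := key m i hi
    have h1 := mul_mem _ _ _ _ (pow_mem (2 * l) _ hz i) (pi_pow_mem (m - l * i))
    have e1 : 2 * l * i + 2 * (m - l * i) = 2 * m := by
      rw [Nat.mul_assoc, ← Nat.mul_add]
      congr 1
      omega
    rw [e1] at h1
    rw [e3 m i hki]
    exact h1
  · have hmod : (2 * m + 1) % 2 = 1 := by omega
    rw [hmod]
    simp only [mul_one]
    have hm1 : 1 ≤ m := by omega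
    have e0 : 2 * m + 1 - 3 = 2 * (m - 1) := by omega
    rw [e0]
    apply pow_rank_ge (z3 * Real.pi ^ (2 * (m - 1))) _
      (mul_ne_zero z3_pos.ne' (pow_ne_zero _ hpi)) ht
    intro i hi
    have hki := key (m - 1) i hi
    have h1 := mul_mem _ _ _ _ z3_mem
      (mul_mem _ _ _ _ (pow_mem (2 * l) _ hz i) (pi_pow_mem (m - 1 - l * i)))
    have e1 : 3 + (2 * l * i + 2 * (m - 1 - l * i)) = 2 * m + 1 := by
      rw [Nat.mul_assoc, ← Nat.mul_add]
      omega
    rw [e1] at h1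
    rw [mul_assoc, e3 (m - 1) i hki]
    exact h1

theorem growth_lcm (k : ℕ) (z : ℝ) (hz : z ∈ Zs k)
    (ht : Transcendental ℚ (z / Real.pi ^ k)) (n : ℕ) (hn : 2 ≤ n) :
    (((n - 3 * (n % 2)) / (Nat.lcm k 2) + 1 : ℕ) : Cardinal) ≤ Module.rank ℚ (Zs n) := by
  rcases Nat.even_or_odd' k with ⟨l, rfl | rfl⟩
  · have : Nat.lcm (2 * l) 2 = 2 * l := Nat.lcm_eq_left (Dvd.intro l rfl)
    rw [this]
    exact growth_even l z hz ht n hn
  · have : Nat.lcm (2 * l + 1) 2 = 2 * (2 * l + 1) := by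
      rw [Nat.Coprime.lcm_eq_mul (by simp), mul_comm]
    rw [this]
    exact growth (2 * l + 1) z hz ht n hn

/-- For every `p`: either the sum `Z_0 + Z_1 + ... + Z_p` of the spaces of multiple zeta values is
direct, or there are a weight `k` with `3 ≤ k ≤ p` and an element `z` of `Z_k` such that
`z / π ^ k` is transcendental, and then, for every `n ≥ 2`, the dimension of `Z_n` is at least
`⌊n / lcm (k, 2)⌋ + 1` if `n` is even and at least `⌊(n - 3) / lcm (k, 2)⌋ + 1` if `n` is odd. -/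
theorem result (p : ℕ) :
    (∀ z : ℕ → ℝ, (∀ j ≤ p, z j ∈ Z j) → (∑ j ∈ Finset.range (p + 1), z j) = 0 →
      ∀ j ≤ p, z j = 0) ∨
    (∃ k, 3 ≤ k ∧ k ≤ p ∧ (∃ z ∈ Z k, Transcendental ℚ (z / Real.pi ^ k)) ∧
      ∀ n, 2 ≤ n →
        (((n - 3 * (n % 2)) / (Nat.lcm k 2) + 1 : ℕ) : Cardinal) ≤ Module.rank ℚ (Z n)) := by
  rcases direct_or p with h | ⟨k, h3, hkp, z, hz, ht⟩
  · left
    intro z hz hs
    exact h z (fun j hj => by rw [← Z_eq]; exact hz j hj) hs
  · right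
    refine ⟨k, h3, hkp, ⟨z, by rw [Z_eq]; exact hz, ht⟩, fun n hn => ?_⟩
    rw [Z_eq]
    exact growth_lcm k z hz ht n hn

end Pool.Agent.Results.MP_2000e9_nt.GradedOrGrowth
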