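import Mathlib
import Pool.Agent.X90.DH.Main5

/-!
# MP_2000e9_nt: relations of mixed weight between the values with one large argument

Fix `W` and consider the multiple zeta values of weight at most `s + W` with an argument at least `s` (`s` large):
the values `ζ(q, s + b, r)` with `q` admissible (or empty) and `|q| + b + |r| ≤ W`. Their weights are `s, …, s + W`;
their number is `∑_{j ≤ W} 2 ^ j A_{W - j}`, where `A_m` is the number of admissible indices of weight at most `m`
(`A_0 = 1`, `A_m = 2 ^ (m - 1)`).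

Theorem. Here for almost all `s` means: for all but a bounded number of the `s ∈ [N, κ N]`, for all large `N`.
(1) For almost all `s` the relations with integer coefficients of absolute value at most `C ^ s` between these values
span a space of dimension `∑_{j ≤ W} 2 ^ j (A_{W - j} - dim(Z_0 + ⋯ + Z_{W - j}))`.
(2) `dim(Z_0 + ⋯ + Z_m) = d_0 + ⋯ + d_m` for all `m ≤ W` if and only if, for each `V ≤ W` and almost all `s`, this
dimension (for `V`) is `∑_{j ≤ V} 2 ^ j (A_{V - j} - d_0 - ⋯ - d_{V - j})`.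
(3) Q1 (`dim Z_n = d_n` for all `n` and `𝒵` is the direct sum of the `Z_n`) holds if and only if `dim Z_n ≤ d_n` for
all `n` (a theorem of Terasoma and of Deligne and Goncharov) and the statement of (2) on the relations with one large
argument holds for all `V`.
(4) For almost all `s` the `20` values of weight at most `s + 3` with an argument at least `s` have exactly one
relation with coefficients at most `C ^ s`, up to a factor.

Proof (`Pool/Agent/X90/DH`): a word with a fixed part `q` is expanded with the stuffle product into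
`∑ ± ζ(p) ζ(s + b, r)` with initial segments `p` of `q`; the expansion is a bijection on the coefficients, and by the
elimination of `Pool/Agent/X90/DD/Lin` a relation of bounded height splits for almost all `s` into relations
`∑ c_p ζ(p) = 0`, in which the weights of the `p` are mixed, one for each `(b, r)`.
-/

set_option autoImplicit false

namespace Pool.Agent.Results.MP_2000e9_nt.MixedWeightCount

/-- `trunc [s_1, ..., s_r] m` is the sum of `∏ n_i ^ (-s_i)` over `m > n_1 > ... > n_r ≥ 1` -/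
noncomputable def trunc : List ℕ → ℕ → ℝ
  | [], _ => 1
  | s :: l, m => ∑ j ∈ Finset.Ico 1 m, trunc l j / (j : ℝ) ^ s

/-- the multiple zeta value `ζ(s_1, ..., s_r)`, the sum of `∏ n_i ^ (-s_i)` over
`n_1 > ... > n_r ≥ 1`; `ζ() = 1` -/
noncomputable def mzv : List ℕ → ℝ
  | [] => 1
  | s :: l => ∑' m : ℕ, trunc l (m + 1) / ((m + 1 : ℕ) : ℝ) ^ s

/-- admissible indices: the empty index and `(s_1, ..., s_r)` with `s_1 ≥ 2` and all `s_i ≥ 1` -/
def Admissible : List ℕ → Prop
  | [] => True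
  | s :: l => 2 ≤ s ∧ ∀ t ∈ l, 1 ≤ t

/-- the `ℚ`-span `Z_n` of the multiple zeta values of weight `n` -/
noncomputable def Z (n : ℕ) : Submodule ℚ ℝ :=
  Submodule.span ℚ (mzv '' {p | Admissible p ∧ p.sum = n})

/-- the `ℚ`-span `Z_0 + ⋯ + Z_m` of the multiple zeta values of weight at most `m` -/
noncomputable def Zle (m : ℕ) : Submodule ℚ ℝ :=
  Submodule.span ℚ (mzv '' {p | Admissible p ∧ p.sum ≤ m})

/-- the number of admissible indices of weight `n` -/
def numIndices : ℕ → ℕ
  | 0 => 1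
  | 1 => 0
  | n + 2 => 2 ^ n

/-- the number `A_m` of admissible indices of weight at most `m` -/
def numUpTo (m : ℕ) : ℕ := ∑ n ∈ Finset.range (m + 1), numIndices n

/-- the numbers `d_n` -/
def d : ℕ → ℕ
  | 0 => 1
  | 1 => 0
  | 2 => 1
  | n + 3 => d n + d (n + 1)

/-- the sum of the spaces `Z_n` is direct: if `z_n ∈ Z_n` and `z_0 + ⋯ + z_W = 0` then all `z_n = 0` -/
def Graded : Prop :=
  ∀ (W : ℕ) (z : ℕ → ℝ), (∀ n ≤ W, z n ∈ Z n) → ∑ n ∈ Finset.range (W + 1), z n = 0 → ∀ n ≤ W, z n = 0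

/-- Q1: `dim Z_n = d_n` for all `n`, and the sum of the `Z_n` is direct -/
def Zagier : Prop := (∀ n, Module.finrank ℚ (Z n) = d n) ∧ Graded

/-- the `ℚ`-space spanned by the relations `∑ c_w ζ(w) = 0` with integers `c_w` of absolute value at
most `H` between the multiple zeta values of weight at most `s + W` with an argument at least `s` -/
noncomputable def relationSpace (W s : ℕ) (H : ℝ) : Submodule ℚ (List ℕ →₀ ℚ) :=
  Submodule.span ℚ {c | (∀ w ∈ c.support, Admissible w ∧ w.sum ≤ s + W ∧ ∃ t ∈ w, s ≤ t) ∧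
    (∀ w, ∃ z : ℤ, c w = z ∧ |(z : ℝ)| ≤ H) ∧ c.sum (fun w x => (x : ℝ) * mzv w) = 0}

/-- for all `κ` there is `K` such that for all `C > 1`, all sufficiently large `N` and all but at most
`K` of the `s ∈ [N, κ N]` the relations with coefficients of absolute value at most `C ^ s` between
the multiple zeta values of weight at most `s + W` with an argument at least `s` span a space of
dimension `D` -/
def AlmostDimension (W D : ℕ) : Prop :=
  ∀ κ : ℕ, ∃ K : ℕ, ∀ C : ℝ, 1 < C → ∃ N0 : ℕ, ∀ N : ℕ, N0 ≤ N →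
    {s : ℕ | (N ≤ s ∧ s ≤ κ * N) ∧ Module.finrank ℚ (relationSpace W s (C ^ s)) ≠ D}.ncard ≤ K

/-- `∑_{j ≤ V} 2 ^ j (A_{V - j} - d_0 - ⋯ - d_{V - j})` -/
def expected (V : ℕ) : ℕ :=
  ∑ j ∈ Finset.range (V + 1), 2 ^ j * (numUpTo (V - j) - ∑ n ∈ Finset.range (V - j + 1), d n)

open Finset
open Pool.Agent.X90.DB (Ad)
open Pool.Agent.X90.DD (WS)
open Pool.Agent.X90.DH (US)

theorem trunc_eq : ∀ l m, trunc l m = Pool.Agent.Y760.ZG.hr l m := by
  intro l
  induction l with
  | nil => intro m; rw [trunc, Pool.Agent.Y760.ZG.hr]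
  | cons s l ih =>
    intro m
    rw [trunc, Pool.Agent.Y760.ZG.hr]
    exact Finset.sum_congr rfl fun j _ => by rw [ih]

theorem mzv_eq : ∀ l, mzv l = Pool.Agent.Y760.ZG.mz l := by
  intro l
  cases l with
  | nil => rw [mzv, Pool.Agent.Y760.ZG.mz]
  | cons s l =>
    rw [mzv, Pool.Agent.Y760.ZG.mz]
    exact tsum_congr fun k => by rw [trunc_eq]

theorem adm_iff : ∀ u, Admissible u ↔ (u = [] ∨ Ad u) := by
  intro u
  cases u with
  | nil => exact ⟨fun _ => Or.inl rfl, fun _ => trivial⟩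
  | cons a l => exact ⟨fun h => Or.inr h, fun h => h.resolve_left (List.cons_ne_nil _ _)⟩

theorem Z_eq (n : ℕ) : Z n = WS n := by
  rw [Z, WS]
  have h1 : mzv = Pool.Agent.Y760.ZG.mz := funext mzv_eq
  have h2 : {p : List ℕ | Admissible p ∧ p.sum = n} = {p | (p = [] ∨ Ad p) ∧ p.sum = n} := by
    ext p
    rw [Set.mem_ofPred_eq, Set.mem_ofPred_eq, adm_iff]
  rw [h1, h2]

theorem num_eq : ∀ n, numIndices n = Pool.Agent.X90.DE.na n
  | 0 => rfl
  | 1 => rfl
  | _ + 2 => rfl

theorem Zle_eq (n : ℕ) : Zle n = US n := by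
  rw [Zle, US]
  have h1 : mzv = Pool.Agent.Y760.ZG.mz := funext mzv_eq
  have h2 : {p : List ℕ | Admissible p ∧ p.sum ≤ n} = {p | (p = [] ∨ Ad p) ∧ p.sum ≤ n} := by
    ext p
    rw [Set.mem_ofPred_eq, Set.mem_ofPred_eq, adm_iff]
  rw [h1, h2]

theorem num5_eq (m : ℕ) : numUpTo m = Pool.Agent.X90.DH.nA m := by
  rw [numUpTo, Pool.Agent.X90.DH.nA]
  exact sum_congr rfl fun n _ => num_eq n

theorem rel_eq (W k : ℕ) (H : ℝ) : relationSpace W k H = Pool.Agent.X90.DH.relS5 W k H := by
  rw [relationSpace, Pool.Agent.X90.DH.relS5]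
  simp only [mzv_eq, adm_iff, Pool.Agent.X90.DH.Fam5]

theorem finrank_le (n : ℕ) : Module.finrank ℚ (WS n) ≤ Pool.Agent.X90.DE.na n := by
  classical
  rw [Pool.Agent.X90.DE.WS_eq, ← Pool.Agent.X90.DE.card_ad]
  exact (finrank_span_finset_le_card _).trans card_image_le

theorem finrank_le5 (n : ℕ) : Module.finrank ℚ (US n) ≤ Pool.Agent.X90.DH.nA n := by
  classical
  rw [Pool.Agent.X90.DH.US_eq, ← Pool.Agent.X90.DH.card_al]
  exact (finrank_span_finset_le_card _).trans card_image_le

theorem almost (W : ℕ) : AlmostDimension W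
    (∑ j ∈ range (W + 1), 2 ^ j * (numUpTo (W - j) - Module.finrank ℚ (Zle (W - j)))) := by
  classical
  intro κ
  obtain ⟨K, hK⟩ := Pool.Agent.X90.DH.main5 W κ
  refine ⟨K, fun C hC => ?_⟩
  obtain ⟨N0, hN0⟩ := hK C hC
  refine ⟨N0, fun N hN => ?_⟩
  have hfin : {s : ℕ | (N ≤ s ∧ s ≤ κ * N) ∧ Module.finrank ℚ (relationSpace W s (C ^ s)) ≠
      ∑ j ∈ range (W + 1), 2 ^ j *
        (numUpTo (W - j) - Module.finrank ℚ (Zle (W - j)))}.Finite := by
    refine (Finset.Icc N (κ * N)).finite_toSet.subset ?_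
    rintro s ⟨hs, -⟩
    exact Finset.mem_coe.2 (Finset.mem_Icc.2 hs)
  rw [Set.ncard_eq_toFinset_card _ hfin]
  refine hN0 N hN hfin.toFinset fun k hk => ?_
  rw [Set.Finite.mem_toFinset] at hk
  obtain ⟨hk1, hk2⟩ := hk
  refine ⟨hk1, fun h => hk2 ?_⟩
  rw [rel_eq]
  have h1 : ∑ j ∈ range (W + 1), 2 ^ j * (numUpTo (W - j) - Module.finrank ℚ (Zle (W - j))) +
      ∑ j ∈ range (W + 1), 2 ^ j * Module.finrank ℚ (US (W - j)) =
      ∑ j ∈ range (W + 1), 2 ^ j * Pool.Agent.X90.DH.nA (W - j) := by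
    rw [← sum_add_distrib]
    refine sum_congr rfl fun n _ => ?_
    rw [← mul_add, Zle_eq, num5_eq]
    congr 1
    have := finrank_le5 (W - n)
    omega
  omega

theorem almost_unique {V D D' : ℕ} (h : AlmostDimension V D) (h' : AlmostDimension V D') :
    D = D' := by
  by_contra hne
  obtain ⟨K, hK⟩ := h 2
  obtain ⟨K', hK'⟩ := h' 2
  obtain ⟨N0, hN0⟩ := hK 2 one_lt_two
  obtain ⟨N0', hN0'⟩ := hK' 2 one_lt_two
  set N := N0 + N0' + K + K' with hN
  have h1 := hN0 N (by omega)
  have h2 := hN0' N (by omega)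
  have h3 : ((Finset.Icc N (2 * N) : Finset ℕ) : Set ℕ) ⊆
      {k : ℕ | (N ≤ k ∧ k ≤ 2 * N) ∧ Module.finrank ℚ (relationSpace V k (2 ^ k)) ≠ D} ∪
      {k : ℕ | (N ≤ k ∧ k ≤ 2 * N) ∧ Module.finrank ℚ (relationSpace V k (2 ^ k)) ≠ D'} := by
    intro k hk
    have hk' := Finset.mem_Icc.1 (Finset.mem_coe.1 hk)
    by_cases h4 : Module.finrank ℚ (relationSpace V k (2 ^ k)) = D
    · exact Or.inr ⟨hk', fun h5 => hne (h4.symm.trans h5)⟩
    · exact Or.inl ⟨hk', h4⟩
  have hfin : ∀ D : ℕ, {k : ℕ | (N ≤ k ∧ k ≤ 2 * N) ∧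
      Module.finrank ℚ (relationSpace V k (2 ^ k)) ≠ D}.Finite := by
    intro D
    refine (Finset.Icc N (2 * N)).finite_toSet.subset ?_
    rintro s ⟨hs, -⟩
    exact Finset.mem_coe.2 (Finset.mem_Icc.2 hs)
  have h4 := (Set.ncard_le_ncard h3 ((hfin D).union (hfin D'))).trans (Set.ncard_union_le _ _)
  rw [Set.ncard_coe_finset, Nat.card_Icc] at h4
  omega

theorem d_le : ∀ n, d n ≤ Pool.Agent.X90.DE.na n
  | 0 => le_rfl
  | 1 => le_rfl
  | 2 => le_rfl
  | n + 3 => by
    have h1 := d_le n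
    have h2 := d_le (n + 1)
    have hn : ∀ n, Pool.Agent.X90.DE.na n ≤ 2 ^ n := by
      intro n
      match n with
      | 0 => exact le_rfl
      | 1 => exact Nat.zero_le _
      | n + 2 => exact Nat.pow_le_pow_right (by norm_num) (by omega)
    have h3 := hn n
    have h4 : Pool.Agent.X90.DE.na (n + 1) ≤ 2 ^ n := by
      match n with
      | 0 => exact Nat.zero_le _
      | n + 1 => exact Nat.pow_le_pow_right (by norm_num) (by omega)
    show d n + d (n + 1) ≤ 2 ^ (n + 1)
    rw [pow_succ]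
    omega

/-- the dimension of the sum of the spaces -/
theorem finrank_US (m : ℕ) : Module.finrank ℚ (US m) ≤ ∑ n ∈ range (m + 1), Module.finrank ℚ (WS n) ∧
    (Module.finrank ℚ (US m) = ∑ n ∈ range (m + 1), Module.finrank ℚ (WS n) ↔
      ∀ z : ℕ → ℝ, (∀ n ≤ m, z n ∈ WS n) → ∑ n ∈ range (m + 1), z n = 0 → ∀ n ≤ m, z n = 0) := by
  classical
  let T : ((n : Fin (m + 1)) → ↥(WS n)) →ₗ[ℚ] ℝ :=
    ∑ n : Fin (m + 1), (WS n).subtype.comp (LinearMap.proj n)
  have hT : ∀ z, T z = ∑ n : Fin (m + 1), (z n : ℝ) := by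
    intro z
    simp only [T, LinearMap.sum_apply, LinearMap.comp_apply, LinearMap.proj_apply,
      Submodule.subtype_apply]
  have hr : LinearMap.range T = US m := by
    apply le_antisymm
    · rintro _ ⟨z, rfl⟩
      rw [hT]
      refine Submodule.sum_mem _ fun n _ => ?_
      have h1 : WS n ≤ US m := by
        rw [WS, US]
        refine Submodule.span_mono (Set.image_mono ?_)
        rintro p ⟨hp1, hp2⟩
        exact ⟨hp1, by rw [hp2]; omega⟩
      exact h1 (z n).2
    · rw [US, Submodule.span_le]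
      rintro _ ⟨p, ⟨hp1, hp2⟩, rfl⟩
      refine ⟨Pi.single (⟨p.sum, by omega⟩ : Fin (m + 1))
        (⟨Pool.Agent.Y760.ZG.mz p, Pool.Agent.X90.DE.mz_mem hp1 rfl⟩ : ↥(WS p.sum)), ?_⟩
      rw [hT, sum_eq_single (⟨p.sum, by omega⟩ : Fin (m + 1))]
      · rw [Pi.single_eq_same]
      · intro n _ hn
        rw [Pi.single_eq_of_ne hn]
        rfl
      · intro h
        exact absurd (mem_univ _) h
  have h1 := LinearMap.finrank_range_add_finrank_ker T
  rw [hr, Module.finrank_pi_fintype] at h1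
  rw [← Fin.sum_univ_eq_sum_range (fun n => Module.finrank ℚ (WS n)) (m + 1)]
  have hker : Module.finrank ℚ (LinearMap.ker T) = 0 ↔
      ∀ z : ℕ → ℝ, (∀ n ≤ m, z n ∈ WS n) → ∑ n ∈ range (m + 1), z n = 0 → ∀ n ≤ m, z n = 0 := by
    rw [Submodule.finrank_eq_zero, LinearMap.ker_eq_bot']
    constructor
    · intro h z hz1 hz2 n hn
      have h2 := h (fun n : Fin (m + 1) => (⟨z n, hz1 n (by omega)⟩ : ↥(WS n))) (by
        rw [hT, ← hz2, ← Fin.sum_univ_eq_sum_range])
      have h3 := congrArg Subtype.val (congrFun h2 ⟨n, by omega⟩)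
      exact h3
    · intro h z hz
      rw [hT] at hz
      funext n
      ext
      have h2 := h (fun n => if hn : n < m + 1 then (z ⟨n, hn⟩ : ℝ) else 0) (fun n hn => by
        simp only
        rw [dif_pos (by omega : n < m + 1)]
        exact (z ⟨n, by omega⟩).2) (by
        rw [← Fin.sum_univ_eq_sum_range (fun n => if hn : n < m + 1 then (z ⟨n, hn⟩ : ℝ) else 0)]
        rw [← hz]
        refine sum_congr rfl fun n _ => ?_
        rw [dif_pos n.2]) n.1 (by omega)
      simp only at h2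
      rw [dif_pos n.2] at h2
      exact h2
  rw [← hker]
  constructor
  · omega
  · omega

theorem sum_iff (W : ℕ) : (∀ m ≤ W, Module.finrank ℚ (Zle m) = ∑ n ∈ range (m + 1), d n) ↔
    ∀ V ≤ W, AlmostDimension V (expected V) := by
  constructor
  · intro h V hV
    have h1 := almost V
    have h2 : ∑ j ∈ range (V + 1), 2 ^ j * (numUpTo (V - j) - Module.finrank ℚ (Zle (V - j))) =
        expected V := by
      rw [expected]
      refine sum_congr rfl fun j _ => ?_
      rw [h (V - j) (by omega)]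
    rwa [h2] at h1
  · intro h n
    induction n using Nat.strong_induction_on with
    | _ n ih =>
      intro hn
      have h1 := almost_unique (almost n) (h n hn)
      rw [expected, sum_range_succ', sum_range_succ'] at h1
      simp only [pow_zero, one_mul, Nat.sub_zero] at h1
      have h2 : ∑ j ∈ range n, 2 ^ (j + 1) *
            (numUpTo (n - (j + 1)) - Module.finrank ℚ (Zle (n - (j + 1)))) =
          ∑ j ∈ range n, 2 ^ (j + 1) *
            (numUpTo (n - (j + 1)) - ∑ i ∈ range (n - (j + 1) + 1), d i) := by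
        refine sum_congr rfl fun j hj => ?_
        rw [mem_range] at hj
        rw [ih (n - (j + 1)) (by omega) (by omega)]
      rw [h2, add_right_inj, num5_eq] at h1
      have h3 : Module.finrank ℚ (Zle n) ≤ Pool.Agent.X90.DH.nA n := by
        rw [Zle_eq]
        exact finrank_le5 n
      have h4 : ∑ i ∈ range (n + 1), d i ≤ Pool.Agent.X90.DH.nA n := sum_le_sum fun i _ => d_le i
      omega

theorem zagier_iff : Zagier ↔
    (∀ n, Module.finrank ℚ (Z n) ≤ d n) ∧ ∀ V, AlmostDimension V (expected V) := by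
  have hgr : Graded ↔ ∀ m, Module.finrank ℚ (US m) =
      ∑ n ∈ range (m + 1), Module.finrank ℚ (WS n) := by
    rw [Graded]
    refine forall_congr' fun m => ?_
    rw [(finrank_US m).2]
    simp only [Z_eq]
  rw [Zagier, hgr]
  constructor
  · rintro ⟨h1, h2⟩
    refine ⟨fun n => (h1 n).le, fun V => (sum_iff V).1 (fun m _ => ?_) V le_rfl⟩
    rw [Zle_eq, h2]
    exact sum_congr rfl fun n _ => by rw [← Z_eq, h1]
  · rintro ⟨h1, h2⟩
    have h3 : ∀ m, Module.finrank ℚ (US m) = ∑ n ∈ range (m + 1), d n := fun m => by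
      rw [← Zle_eq]
      exact (sum_iff m).2 (fun V _ => h2 V) m le_rfl
    have h4 : ∀ m, ∑ n ∈ range (m + 1), d n ≤ ∑ n ∈ range (m + 1), Module.finrank ℚ (WS n) :=
      fun m => by
        rw [← h3]
        exact (finrank_US m).1
    have h5 : ∀ n, Module.finrank ℚ (WS n) ≤ d n := fun n => by
      rw [← Z_eq]
      exact h1 n
    have h6 : ∀ n, Module.finrank ℚ (WS n) = d n := by
      intro n
      have h7 := h4 n
      rw [sum_range_succ, sum_range_succ] at h7
      have h8 : ∑ i ∈ range n, Module.finrank ℚ (WS i) ≤ ∑ i ∈ range n, d i :=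
        sum_le_sum fun i _ => h5 i
      have h9 := h5 n
      omega
    refine ⟨fun n => by rw [Z_eq, h6], fun m => ?_⟩
    rw [h3]
    exact sum_congr rfl fun n _ => (h6 n).symm

theorem finrank_one {n : ℕ} {y : ℝ} (hy : y ∈ WS n) (hy0 : y ≠ 0)
    (h : ∀ x ∈ WS n, ∃ q : ℚ, x = q * y) : Module.finrank ℚ (WS n) = 1 := by
  rw [finrank_eq_one_iff']
  refine ⟨⟨y, hy⟩, fun h0 => hy0 (congrArg Subtype.val h0), fun x => ?_⟩
  obtain ⟨q, hq⟩ := h x.1 x.2
  refine ⟨q, ?_⟩
  ext
  rw [hq]
  exact Rat.smul_def q y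

theorem almost_three : AlmostDimension 3 1 := by
  have h1 := almost 3
  have hm : ∀ a, 2 ≤ a → Pool.Agent.Y760.ZG.mz [a] ∈ WS a ∧ Pool.Agent.Y760.ZG.mz [a] ≠ 0 := by
    intro a ha
    refine ⟨Pool.Agent.X90.DE.mz_mem (Or.inr ⟨ha, by simp⟩) (by simp), ?_⟩
    exact (Pool.Agent.X90.DD.mz_pos ha).ne'
  have e0 : Module.finrank ℚ (WS 0) = 1 := by
    refine finrank_one (y := 1) ?_ one_ne_zero fun x hx => ?_
    · have := Pool.Agent.X90.DE.mz_mem (p := []) (n := 0) (Or.inl rfl) rfl
      rwa [Pool.Agent.Y760.ZG.mz] at this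
    · obtain ⟨q, hq⟩ := Pool.Agent.X90.DD.WS_zero hx
      exact ⟨q, by rw [hq, mul_one]⟩
  have e1 : Module.finrank ℚ (WS 1) = 0 := by
    have h2 := finrank_le 1
    exact Nat.le_zero.1 h2
  have e2 : Module.finrank ℚ (WS 2) = 1 :=
    finrank_one (hm 2 le_rfl).1 (hm 2 le_rfl).2 fun x hx => Pool.Agent.X90.DD.WS_two hx
  have e3 : Module.finrank ℚ (WS 3) = 1 :=
    finrank_one (hm 3 (by norm_num)).1 (hm 3 (by norm_num)).2
      fun x hx => Pool.Agent.X90.DD.WS_three hx
  have hd : ∀ m ≤ 3, Module.finrank ℚ (Zle m) = ∑ n ∈ range (m + 1), Module.finrank ℚ (WS n) := by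
    intro m hm3
    rw [Zle_eq, (finrank_US m).2]
    intro z hz1 hz2 n hn
    have h2 := Pool.Agent.X90.DD.direct_three (fun n => if n ≤ m then z n else 0) (fun j _ => by
      split_ifs with h
      · exact hz1 j h
      · exact Submodule.zero_mem _) (by
      rw [← sum_filter]
      refine Eq.trans (sum_congr ?_ fun _ _ => rfl) hz2
      ext j
      rw [mem_filter, mem_range, mem_range]
      omega) n (by omega)
    rwa [if_pos hn] at h2
  have h2 : ∑ j ∈ range (3 + 1), 2 ^ j * (numUpTo (3 - j) - Module.finrank ℚ (Zle (3 - j))) = 1 := by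
    simp only [sum_range_succ, sum_range_zero]
    rw [hd _ (by norm_num), hd _ (by norm_num), hd _ (by norm_num), hd _ (by norm_num)]
    simp only [Nat.sub_zero, Nat.reduceSub, Nat.reduceAdd, sum_range_succ, sum_range_zero, e0, e1, e2,
      e3]
    rfl
  rwa [h2] at h1

/-- **Relations of mixed weight between the values with one large argument.** (1) For all `W` and
almost all `s` the integer relations with coefficients of absolute value at most `C ^ s` between the
multiple zeta values of weight at most `s + W` with an argument at least `s` span a space of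
dimension `∑_{j ≤ W} 2 ^ j (A_{W - j} - dim(Z_0 + ⋯ + Z_{W - j}))`. (2) `dim(Z_0 + ⋯ + Z_m) =
d_0 + ⋯ + d_m` for all `m ≤ W` if and only if this dimension is the expected one for all `V ≤ W` and
almost all `s`. (3) Zagier's conjecture (dimensions and grading) holds if and only if
`dim Z_n ≤ d_n` for all `n` and this dimension is the expected one for all `V` and almost all `s`.
(4) For `W = 3` the dimension is `1` for almost all `s`. -/
theorem result :
    (∀ W : ℕ, AlmostDimension W
      (∑ j ∈ Finset.range (W + 1), 2 ^ j * (numUpTo (W - j) - Module.finrank ℚ (Zle (W - j))))) ∧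
    (∀ W : ℕ, (∀ m ≤ W, Module.finrank ℚ (Zle m) = ∑ n ∈ Finset.range (m + 1), d n) ↔
      ∀ V ≤ W, AlmostDimension V (expected V)) ∧
    (Zagier ↔ (∀ n, Module.finrank ℚ (Z n) ≤ d n) ∧ ∀ V, AlmostDimension V (expected V)) ∧
    AlmostDimension 3 1 :=
  ⟨almost, sum_iff, zagier_iff, almost_three⟩

end Pool.Agent.Results.MP_2000e9_nt.MixedWeightCount
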