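import Pool.Agent.Results.MP_2000e9_nt.MixedWeightCount
import Pool.Agent.X174.WinDim

/-!
# Zagier's dimension conjecture and the relations of mixed weight between multiple zeta values with one large argument, for
ALL arguments in windows around thin sequences

Consider the multiple zeta values of weight at most `s + W` with an argument at least `s`. `InWindows W D` is the statement:
for every sequence `v ≥ 1` of exponent of convergence at most `τ` (for `v_i = (i + 1) ^ a` this is `1 / a`, for
`v_i = b ^ i` it is `0`) and every `ρ < 1` there is a set `E ⊂ ℝ` of Hausdorff dimension at most `τ / (1 - ρ)` such that for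
each `α > 0` outside `E` and each `C > 1`, for all but finitely many `i`: for ALL `s` with `|s - α v_i| ≤ v_i ^ ρ` the
relations between these values with integer coefficients of absolute value at most `C ^ s` span a space of dimension `D`.

(1) This holds for `D = ∑_{j ≤ W} 2 ^ j (A_{W - j} - dim(Z_0 + ⋯ + Z_{W - j}))`, `A_m` the number of admissible indices of
weight at most `m`. (2) `dim(Z_0 + ⋯ + Z_m) = d_0 + ⋯ + d_m` for all `m ≤ W` if and only if `InWindows V (expected V)` for all
`V ≤ W`. (3) Zagier's conjecture (dimensions and grading) holds if and only if `dim Z_n ≤ d_n` for all `n` and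
`InWindows V (expected V)` for all `V`. (4) `InWindows 3 1`.

The starting point is our result `MixedWeightCount`.
-/

set_option autoImplicit false

namespace Pool.Agent.Results.MP_2000e9_nt.WeightsInWindows

open MixedWeightCount (mzv Admissible Z Zle numIndices numUpTo d Graded Zagier relationSpace AlmostDimension expected)

/-- the exponent of convergence of the sequence `v` is at most `τ` -/
def ExpLe (v : ℕ → ℝ) (τ : ℝ) : Prop := ∀ t : ℝ, τ < t → Summable (fun n : ℕ => (v n) ^ (-t))

/-- for all sequences `v ≥ 1` of exponent of convergence at most `τ` and all `ρ < 1` there is a set `E ⊂ ℝ` of Hausdorff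
dimension at most `τ / (1 - ρ)` such that for all `α > 0` outside `E` and all `C > 1`, for all but finitely many `i`, for ALL
`s` with `|s - α v_i| ≤ v_i ^ ρ` the relations with coefficients of absolute value at most `C ^ s` between the multiple zeta
values of weight at most `s + W` with an argument at least `s` span a space of dimension `D` -/
def InWindows (W D : ℕ) : Prop :=
  ∀ (v : ℕ → ℝ) (τ ρ : ℝ), (∀ i, 1 ≤ v i) → 0 ≤ τ → ExpLe v τ → ρ < 1 →
    ∃ E : Set ℝ, dimH E ≤ ENNReal.ofReal (τ / (1 - ρ)) ∧ ∀ α : ℝ, 0 < α → α ∉ E → ∀ C : ℝ, 1 < C →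
      ∃ i₀ : ℕ, ∀ i : ℕ, i₀ ≤ i → ∀ s : ℕ, |(s : ℝ) - α * v i| ≤ (v i) ^ ρ →
        Module.finrank ℚ (relationSpace W s (C ^ s)) = D

theorem entries_pos : ∀ w : List ℕ, Admissible w → ∀ t ∈ w, 1 ≤ t
  | [], _, t, ht => absurd ht List.not_mem_nil
  | s :: l, h, t, ht => by
    rcases List.mem_cons.1 ht with rfl | ht
    · exact le_trans (by norm_num) h.1
    · exact h.2 t ht

theorem mono (W s : ℕ) {H H' : ℝ} (hH : H ≤ H') :
    Module.finrank ℚ (relationSpace W s H) ≤ Module.finrank ℚ (relationSpace W s H') := by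
  refine Pool.Agent.X174.finrank_mono_supported (Pool.Agent.X174.finite_lists (s + W)) ?_ ?_
  · refine Submodule.span_mono ?_
    rintro c ⟨h1, h2, h3⟩
    refine ⟨h1, fun w => ?_, h3⟩
    obtain ⟨z, hz1, hz2⟩ := h2 w
    exact ⟨z, hz1, hz2.trans hH⟩
  · refine Submodule.span_le.2 ?_
    rintro c ⟨h1, -, -⟩
    refine (Finsupp.mem_supported ℚ c).2 fun w hw => ?_
    obtain ⟨h4, h5, -⟩ := h1 w hw
    exact ⟨entries_pos w h4, h5⟩

theorem conv (W : ℕ) (D : ℤ) (c₁ c c₂ : ℝ) (k : ℕ) (h1 : 1 < c₁) (h2 : c₁ ≤ c) (h3 : c ≤ c₂)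
    (h4 : (Module.finrank ℚ (relationSpace W k (c₁ ^ k)) : ℤ) = D)
    (h5 : (Module.finrank ℚ (relationSpace W k (c₂ ^ k)) : ℤ) = D) :
    (Module.finrank ℚ (relationSpace W k (c ^ k)) : ℤ) = D := by
  have h6 := mono W k (pow_le_pow_left₀ (by linarith) h2 k : c₁ ^ k ≤ c ^ k)
  have h7 := mono W k (pow_le_pow_left₀ (by linarith) h3 k : c ^ k ≤ c₂ ^ k)
  omega

theorem alm_iff (W D : ℕ) : AlmostDimension W D ↔
    Pool.Agent.X174.Alm (fun c k => (Module.finrank ℚ (relationSpace W k (c ^ k)) : ℤ)) D := by
  unfold AlmostDimension Pool.Agent.X174.Alm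
  simp only [ne_eq, Nat.cast_inj]

theorem inW_iff (W D : ℕ) : InWindows W D ↔
    Pool.Agent.X174.InW (fun c k => (Module.finrank ℚ (relationSpace W k (c ^ k)) : ℤ)) D := by
  unfold InWindows Pool.Agent.X174.InW ExpLe
  simp only [Nat.cast_inj]

theorem almost_iff (W D : ℕ) : AlmostDimension W D ↔ InWindows W D := by
  rw [alm_iff, inW_iff]
  exact Pool.Agent.X174.alm_iff_inW (conv W) ((alm_iff W _).1 (MixedWeightCount.result.1 W)) D

/-- **Relations of mixed weight between the values with one large argument, for all arguments in windows.** (1) For all `W`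
the integer relations with coefficients of absolute value at most `C ^ s` between the multiple zeta values of weight at most
`s + W` with an argument at least `s` span a space of dimension `∑_{j ≤ W} 2 ^ j (A_{W - j} - dim(Z_0 + ⋯ + Z_{W - j}))`, for
ALL `s` in windows around `α v_i`. (2) `dim(Z_0 + ⋯ + Z_m) = d_0 + ⋯ + d_m` for all `m ≤ W` if and only if for all `V ≤ W`
this dimension, for ALL `s` in windows, is the expected one. (3) Zagier's conjecture (dimensions and grading) holds if and
only if `dim Z_n ≤ d_n` for all `n` and this dimension, for ALL `s` in windows, is the expected one for all `V`. (4) For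
`W = 3` the dimension is `1`. The sequences `v_i = (i + 1) ^ a` and `v_i = b ^ i` have exponent of convergence at most
`1 / a` and `0`. -/
theorem result :
    (∀ W : ℕ, InWindows W
      (∑ j ∈ Finset.range (W + 1), 2 ^ j * (numUpTo (W - j) - Module.finrank ℚ (Zle (W - j))))) ∧
    (∀ W : ℕ, (∀ m ≤ W, Module.finrank ℚ (Zle m) = ∑ n ∈ Finset.range (m + 1), d n) ↔
      ∀ V ≤ W, InWindows V (expected V)) ∧
    (Zagier ↔ (∀ n, Module.finrank ℚ (Z n) ≤ d n) ∧ ∀ V, InWindows V (expected V)) ∧
    InWindows 3 1 ∧
    (∀ a : ℝ, 0 < a → ExpLe (fun n : ℕ => ((n : ℝ) + 1) ^ a) (1 / a)) ∧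
    (∀ b : ℝ, 1 < b → ExpLe (fun n : ℕ => b ^ n) 0) := by
  obtain ⟨h1, h2, h3, h4⟩ := MixedWeightCount.result
  refine ⟨fun W => (almost_iff _ _).1 (h1 W), fun W => ?_, ?_, (almost_iff _ _).1 h4,
    fun κ hκ => Pool.Agent.Y854.GM.expLe_pow κ hκ, fun b hb => Pool.Agent.Y854.GM.expLe_geom b hb⟩
  · rw [h2 W]
    exact forall₂_congr fun V _ => almost_iff V _
  · rw [h3]
    exact and_congr Iff.rfl (forall_congr' fun V => almost_iff V _)

end Pool.Agent.Results.MP_2000e9_nt.WeightsInWindows
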